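import Pool.Agent.TH109.SY.Lift
import Pool.Agent.TH109.SS.Kil2

/-!
Second order rigidity of compact symmetric spaces.
-/

open scoped ContDiff Matrix.Norms.Frobenius
open Matrix

noncomputable section

namespace Pool.Agent.TH109.SY

open Pool.Agent.TH109.CG (Mat)
open Pool.Agent.TH109.CG5

variable {N : ℕ} {G : CompactGroup N} {σ : Involution G}

/-! ### comparison of the Koszul formulas -/

theorem ip_eq (Q : SymProduct σ) (g : Metric σ) (Y Z : CG.lieAlg (toC G)) :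
    g.ip Y Z = SS.Fn (toI σ) (liftM Q g) Y Z := by
  funext q
  exact (liftM_hor Q g q (horL σ (SS.cinv q Y)) (horL σ (SS.cinv q Z))).symm

theorem act_eq' (X : CG.lieAlg (toC G)) (f : CG.Pt (toC G) → ℝ) (p : CG.Pt (toC G)) :
    act (G := G) X f p = SS.act X f p := rfl

theorem koszul_eq (Q : SymProduct σ) (g : Metric σ) (X Y Z : CG.lieAlg (toC G)) :
    g.koszul X Y Z = SS.kz (toI σ) (liftM Q g) X Y Z := by
  funext p
  have h1 : g.koszul X Y Z p = (act (G := G) X (g.ip Y Z) p + act (G := G) Y (g.ip X Z) p -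
    act (G := G) Z (g.ip X Y) p - g.ip (CG.brk X Y) Z p + g.ip (CG.brk X Z) Y p +
    g.ip (CG.brk Y Z) X p) / 2 := rfl
  rw [h1, ip_eq Q g Y Z, ip_eq Q g X Z, ip_eq Q g X Y, ip_eq Q g (CG.brk X Y) Z,
    ip_eq Q g (CG.brk X Z) Y, ip_eq Q g (CG.brk Y Z) X]
  rfl

theorem field_conj (A : SS.pSub (toI σ)) (p : CG.Pt (toC G)) :
    field σ (SS.cj p A) p = A := by
  have h1 : field σ (SS.cj p A) p = horL σ (SS.cinv p (SS.cj p A)) := rfl
  rw [h1, SS.cinv_cj]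
  exact horL_of_mem A.2

theorem eq_nabla (Q : SymProduct σ) (g : Metric σ) (X Y : CG.lieAlg (toC G))
    (p : CG.Pt (toC G)) (V : SS.pSub (toI σ))
    (h : ∀ Z, g.val p V (field σ Z p) = g.koszul X Y Z p) : g.nabla X Y p = V := by
  have h1 : ∀ Z, g.val p (g.nabla X Y p) (field σ Z p) = g.koszul X Y Z p :=
    Classical.epsilon_spec (p := fun V : Tan σ => ∀ Z, g.val p V (field σ Z p) =
      g.koszul X Y Z p) ⟨V, h⟩
  by_contra hne
  obtain ⟨W, hW⟩ : ∃ W : SS.pSub (toI σ), W = g.nabla X Y p := ⟨g.nabla X Y p, rfl⟩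
  rw [← hW] at h1 hne
  have hD : (W : CG.lieAlg (toC G)) - (V : CG.lieAlg (toC G)) ≠ 0 := fun h0 =>
    hne (Subtype.ext (sub_eq_zero.1 h0))
  have mD : (W : CG.lieAlg (toC G)) - (V : CG.lieAlg (toC G)) ∈ SS.pSub (toI σ) :=
    (SS.pSub (toI σ)).sub_mem W.2 V.2
  have h2 := (liftM Q g).pos p _ hD
  rw [LinearMap.map_sub₂] at h2
  obtain ⟨D, hDD⟩ : ∃ D : SS.pSub (toI σ), (D : CG.lieAlg (toC G)) =
    (W : CG.lieAlg (toC G)) - (V : CG.lieAlg (toC G)) := ⟨⟨_, mD⟩, rfl⟩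
  rw [← hDD, liftM_hor, liftM_hor] at h2
  have h4 : gB g p W D = gB g p V D := by
    have h3 := field_conj D p
    have e1 := h1 (SS.cj p D)
    have e2 := h (SS.cj p D)
    rw [h3] at e1 e2
    exact e1.trans e2.symm
  rw [h4, sub_self] at h2
  exact lt_irrefl _ h2

/-- The curvature of `G/K` in terms of the horizontal lift of the metric (O'Neill's formula). -/
theorem curv_eq (Q : SymProduct σ) (g : Metric σ) (A B : SS.pSub (toI σ))
    (p : CG.Pt (toC G)) :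
    g.curv (SS.cj p A) (SS.cj p B) p = SS.cur (toQ Q) (liftM Q g) A B p := by
  have hL := lifted Q g
  have hθ := q_theta Q
  obtain ⟨ΓAA, mAA, hAA⟩ := SS.exists_gam hθ hL A A p
  obtain ⟨ΓAB, mAB, hAB⟩ := SS.exists_gam hθ hL A B p
  obtain ⟨ΓBA, mBA, hBA⟩ := SS.exists_gam hθ hL B A p
  obtain ⟨ΓBB, mBB, hBB⟩ := SS.exists_gam hθ hL B B p
  have key : ∀ (C D : SS.pSub (toI σ)) (Γ : CG.lieAlg (toC G)) (mΓ : Γ ∈ SS.pSub (toI σ)),
      (∀ Z, (liftM Q g).val p Γ Z =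
        (SS.K1 (liftM Q g) C D (SS.hp (toI σ) Z) : CG.Pt (toC G) → ℝ) p) →
      g.nabla (SS.cj p C) (SS.cj p D) p = (⟨Γ, mΓ⟩ : SS.pSub (toI σ)) := by
    intro C D Γ mΓ hΓ
    refine eq_nabla Q g _ _ p ⟨Γ, mΓ⟩ fun Z => ?_
    have e1 := congrFun (koszul_eq Q g (SS.cj p C) (SS.cj p D) Z) p
    have e2 := SS.kz_at hL C.2 D.2 (SS.cinv_cj p C) (SS.cinv_cj p D) Z
    have e3 := hΓ (horL σ (SS.cinv p Z))
    have e4 : SS.hp (toI σ) (horL σ (SS.cinv p Z)) = SS.hp (toI σ) (SS.cinv p Z) :=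
      SS.hp_of_mem (horL σ (SS.cinv p Z)).2
    rw [e4] at e3
    have e5 := liftM_hor Q g p ⟨Γ, mΓ⟩ (horL σ (SS.cinv p Z))
    exact e5.symm.trans (e3.trans (e2.symm.trans e1.symm))
  have h1 : g.curv (SS.cj p A) (SS.cj p B) p =
      SS.act (SS.cj p A) (g.koszul (SS.cj p B) (SS.cj p B) (SS.cj p A)) p
      - g.val p (g.nabla (SS.cj p B) (SS.cj p B) p) (g.nabla (SS.cj p A) (SS.cj p A) p)
      - SS.act (SS.cj p B) (g.koszul (SS.cj p A) (SS.cj p B) (SS.cj p A)) p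
      + g.val p (g.nabla (SS.cj p A) (SS.cj p B) p) (g.nabla (SS.cj p B) (SS.cj p A) p)
      + g.koszul (CG.brk (SS.cj p A) (SS.cj p B)) (SS.cj p B) (SS.cj p A) p := rfl
  have h2 := SS.curv_key hθ hL A.2 B.2 (SS.cinv_cj p A) (SS.cinv_cj p B) mAB mBA hAA hAB hBA hBB
  have g1 : g.val p (⟨ΓBB, mBB⟩ : SS.pSub (toI σ)) (⟨ΓAA, mAA⟩ : SS.pSub (toI σ)) =
      (liftM Q g).val p ΓBB ΓAA := (liftM_hor Q g p ⟨ΓBB, mBB⟩ ⟨ΓAA, mAA⟩).symm
  have g2 : g.val p (⟨ΓAB, mAB⟩ : SS.pSub (toI σ)) (⟨ΓBA, mBA⟩ : SS.pSub (toI σ)) =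
      (liftM Q g).val p ΓAB ΓBA := (liftM_hor Q g p ⟨ΓAB, mAB⟩ ⟨ΓBA, mBA⟩).symm
  rw [h1, key A A ΓAA mAA hAA, key A B ΓAB mAB hAB, key B A ΓBA mBA hBA, key B B ΓBB mBB hBB,
    g1, g2, koszul_eq Q g (SS.cj p B) (SS.cj p B) (SS.cj p A),
    koszul_eq Q g (SS.cj p A) (SS.cj p B) (SS.cj p A),
    koszul_eq Q g (CG.brk (SS.cj p A) (SS.cj p B)) (SS.cj p B) (SS.cj p A)]
  exact h2

theorem sec_eq (Q : SymProduct σ) (g : Metric σ) (A B : SS.pSub (toI σ)) (p : CG.Pt (toC G)) :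
    g.sec A B p = SS.cur (toQ Q) (liftM Q g) A B p / ((liftM Q g).val p A A *
      (liftM Q g).val p B B - (liftM Q g).val p A B ^ 2) := by
  have h1 : g.sec A B p = g.curv (SS.cj p A) (SS.cj p B) p /
    (gB g p A A * gB g p B B - gB g p A B ^ 2) := rfl
  rw [h1, curv_eq Q, liftM_hor, liftM_hor, liftM_hor]

/-! ### closeness -/

theorem close_lift (Q : SymProduct σ) (g : Metric σ) {t : ℝ} (h : g.CloseTo Q t) :
    CG4.CloseTo (liftM Q g) (toQ Q) t := by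
  intro L hL hZ A B hA hB p
  have hlen : ∀ A : CG.lieAlg (toC G), qB Q A A ≤ 1 → qB Q (horL σ A) (horL σ A) ≤ 1 := by
    intro A hA
    have h1 := q_split Q A A
    have h2 := qB_nonneg Q (verL σ A)
    linarith
  have h1 := h L hL hZ (horL σ A) (horL σ B) (hlen A hA) (hlen B hB) p
  have h2 : (fun q : CG.Pt (toC G) => (liftM Q g).val q A B - (toQ Q).val A B) =
      fun q => g.val q (horL σ A) (horL σ B) - qB Q (horL σ A) (horL σ B) := by
    funext q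
    have e1 : (toQ Q).val A B = qB Q (horL σ A) (horL σ B) + qB Q (verL σ A) (verL σ B) :=
      q_split Q A B
    have e2 : (liftM Q g).val q A B = g.val q (horL σ A) (horL σ B) +
      qB Q (verL σ A) (verL σ B) := rfl
    rw [e1, e2]
    ring
  rw [h2]
  exact h1

/-- the symmetric metric -/
def baseM (Q : SymProduct σ) : Metric σ where
  val _ A B := Q.val A.1 B.1
  add _ A B C := Q.add A.1 B.1 C.1
  smul _ c A B := Q.smul c A.1 B.1
  symm _ A B := Q.symm A.1 B.1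
  pos _ A hA := Q.pos A.1 fun h => hA (Subtype.ext h)
  smooth A B := ⟨fun _ => Q.val A.1 B.1, contDiff_const, fun _ => rfl⟩
  equiv _ k A B := (Q.inv k.1 A.1 B.1).symm

theorem metric_ext {G : CG.CGroup N} {g g' : CG.Metric G} (h : g.val = g'.val) : g = g' := by
  cases g
  cases g'
  simp only at h
  subst h
  rfl

theorem lift_base (Q : SymProduct σ) : liftM Q (baseM Q) = CG4.cMetric (toQ Q) := by
  apply metric_ext
  funext p
  apply LinearMap.ext₂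
  intro A B
  exact (q_split Q A B).symm

theorem foldr_zero' (L : List (Alg G)) : L.foldr lie (fun _ : Pt G => (0 : ℝ)) = fun _ => 0 :=
  CG4.foldr_zero (G := toC G) L

theorem close_base (Q : SymProduct σ) {t : ℝ} (ht : 0 < t) : (baseM Q).CloseTo Q t := by
  intro L _ _ A B _ _ p
  have h1 : (fun q : Pt G => (baseM Q).val q A B - Q.val (inc A) (inc B)) = fun _ => 0 := by
    funext q
    exact sub_self _
  rw [h1, foldr_zero', abs_zero]
  exact ht.le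

/-! ### the theorem -/

theorem indep_gen {M : Type} [AddCommGroup M] [Module ℝ M] (V : Submodule ℝ M) (A B : V) :
    LinearIndependent ℝ ![A, B] ↔ LinearIndependent ℝ ![(A : M), (B : M)] := by
  rw [LinearIndependent.pair_iff, LinearIndependent.pair_iff]
  refine forall_congr' fun a => forall_congr' fun b => ?_
  rw [Subtype.ext_iff]
  rfl

theorem indep_iff (A B : SS.pSub (toI σ)) : LinearIndependent ℝ ![A, B] ↔
    LinearIndependent ℝ ![(A : CG.lieAlg (toC G)), (B : CG.lieAlg (toC G))] :=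
  indep_gen (SS.pSub (toI σ)) A B

theorem main (Q : SymProduct σ) :
    (∀ ε : ℝ, 0 < ε → ∃ t₀ : ℝ, 0 < t₀ ∧ ∀ (g : Metric σ) (t : ℝ), 0 < t → t ≤ t₀ →
      g.CloseTo Q t → ∃ (p : Pt G) (A B : Tan σ), LinearIndependent ℝ ![A, B] ∧
        g.sec A B p ≤ ε * t ^ 2) ↔
      ∃ A B : Tan σ, LinearIndependent ℝ ![A, B] ∧ brk (inc A) (inc B) = 0 := by
  constructor
  · intro h1
    by_contra hcon
    obtain ⟨c, hc, hb⟩ := SS.base_bound (toI σ) (toQ Q) (by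
      rintro ⟨A, B, hA, hB, hi, h0⟩
      exact hcon ⟨⟨A, hA⟩, ⟨B, hB⟩, (indep_iff ⟨A, hA⟩ ⟨B, hB⟩).2 hi, h0⟩)
    obtain ⟨t₀, ht₀, H⟩ := h1 1 one_pos
    set t : ℝ := min t₀ (min 1 (c / 2)) with ht
    have htp : 0 < t := lt_min ht₀ (lt_min one_pos (by positivity))
    obtain ⟨p, A, B, hi, hsec⟩ := H (baseM Q) t htp (min_le_left _ _) (close_base Q htp)
    have h4 := hb p A.1 B.1 A.2 B.2 ((indep_iff A B).1 hi)
    rw [← lift_base] at h4
    have h5 := h4.trans ((sec_eq Q (baseM Q) A B p).symm.le.trans hsec)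
    have h2 : t ≤ 1 := (min_le_right _ _).trans (min_le_left _ _)
    have h3 : t ≤ c / 2 := (min_le_right _ _).trans (min_le_right _ _)
    nlinarith
  · rintro ⟨A0, B0, hi0, h0⟩ ε hε
    obtain ⟨t₀, h1, h2⟩ := SS.srigid (toI σ) (toQ Q) (q_theta Q) A0.1 B0.1 A0.2 B0.2
      ((indep_iff A0 B0).1 hi0) h0 ε hε
    refine ⟨t₀, h1, fun g t a b c => ?_⟩
    obtain ⟨p, A, B, hA, hB, hi, h3⟩ := h2 (liftM Q g) t a b (lifted Q g) (close_lift Q g c)
    exact ⟨p, ⟨A, hA⟩, ⟨B, hB⟩, (indep_iff ⟨A, hA⟩ ⟨B, hB⟩).2 hi,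
      (sec_eq Q g ⟨A, hA⟩ ⟨B, hB⟩ p).le.trans h3⟩

end Pool.Agent.TH109.SY
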