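import Pool.Agent.TH109.SY.Stmt
import Pool.Agent.TH109.SS.Shp

/-!
The horizontal lift of a metric on `G/K` to `G`.
-/

open scoped ContDiff Matrix.Norms.Frobenius
open Matrix

noncomputable section

namespace Pool.Agent.TH109.SY

open Pool.Agent.TH109.CG (Mat)
open Pool.Agent.TH109.CG5

variable {N : ℕ} {G : CompactGroup N} {σ : Involution G}

/-- the horizontal part -/
def horL (σ : Involution G) : CG.lieAlg (toC G) →ₗ[ℝ] SS.pSub (toI σ) :=
  LinearMap.codRestrict (SS.pSub (toI σ)) ((1 / 2 : ℝ) • (LinearMap.id - SS.theta (toI σ)))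
    (by
      intro A
      rw [SS.mem_pSub']
      simp only [LinearMap.smul_apply, LinearMap.sub_apply, LinearMap.id_apply, map_smul, map_sub,
        SS.theta_theta]
      rw [← smul_neg, neg_sub])

theorem horL_coe (A : CG.lieAlg (toC G)) : (horL σ A : CG.lieAlg (toC G)) =
    (1 / 2 : ℝ) • (A - SS.theta (toI σ) A) := rfl

/-- the vertical part -/
def verL (σ : Involution G) : CG.lieAlg (toC G) →ₗ[ℝ] CG.lieAlg (toC G) :=
  (1 / 2 : ℝ) • (LinearMap.id + SS.theta (toI σ))

theorem verL_apply (A : CG.lieAlg (toC G)) : verL σ A = (1 / 2 : ℝ) • (A + SS.theta (toI σ) A) :=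
  rfl

theorem hor_add_ver (A : CG.lieAlg (toC G)) : (horL σ A : CG.lieAlg (toC G)) + verL σ A = A := by
  rw [horL_coe, verL_apply, ← smul_add, sub_add_add_cancel, ← two_smul ℝ, smul_smul]
  norm_num

theorem horL_of_mem {A : CG.lieAlg (toC G)} (hA : A ∈ SS.pSub (toI σ)) : horL σ A = ⟨A, hA⟩ := by
  apply Subtype.ext
  rw [horL_coe, (SS.mem_pSub' (toI σ) A).1 hA, sub_neg_eq_add, ← two_smul ℝ, smul_smul]
  norm_num

theorem verL_of_mem {A : CG.lieAlg (toC G)} (hA : A ∈ SS.pSub (toI σ)) : verL σ A = 0 := by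
  rw [verL_apply, (SS.mem_pSub' (toI σ) A).1 hA, add_neg_cancel, smul_zero]

theorem horL_of_fix {A : CG.lieAlg (toC G)} (hA : SS.theta (toI σ) A = A) : horL σ A = 0 := by
  apply Subtype.ext
  rw [horL_coe, hA, sub_self, smul_zero]
  rfl

theorem verL_of_fix {A : CG.lieAlg (toC G)} (hA : SS.theta (toI σ) A = A) : verL σ A = A := by
  rw [verL_apply, hA, ← two_smul ℝ, smul_smul]
  norm_num

/-- the inner product as a bilinear map -/
def qB (Q : SymProduct σ) : CG.lieAlg (toC G) →ₗ[ℝ] CG.lieAlg (toC G) →ₗ[ℝ] ℝ :=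
  LinearMap.mk₂ ℝ (fun A B : CG.lieAlg (toC G) => Q.val A B)
    (fun A B C => Q.add A B C)
    (fun c A B => Q.smul c A B)
    (fun A B C => (Q.symm _ _).trans ((Q.add B C A).trans
      (congrArg₂ (· + ·) (Q.symm B A) (Q.symm C A))))
    (fun c A B => (Q.symm _ _).trans ((Q.smul c B A).trans
      (congrArg (fun x => c * x) (Q.symm B A))))

theorem qB_apply (Q : SymProduct σ) (A B : CG.lieAlg (toC G)) : qB Q A B = Q.val A B := rfl

theorem q_ad (Q : SymProduct σ) (Z A B : CG.lieAlg (toC G)) (u : ℝ) :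
    qB Q (CG.ad Z u A) (CG.ad Z u B) = qB Q A B := by
  have h := Q.inv (⟨NormedSpace.exp (u • (Z : Mat N)), Z.2 u⟩ : Pt G) A B
  have e : ∀ A : CG.lieAlg (toC G),
      conjA (⟨NormedSpace.exp (u • (Z : Mat N)), Z.2 u⟩ : Pt G) A = CG.ad Z u A := fun A =>
    SS.cj_exp Z u A
  rw [e A, e B] at h
  exact h

theorem q_inv (Q : SymProduct σ) (A B C : CG.lieAlg (toC G)) :
    qB Q (CG.brk A B) C = qB Q A (CG.brk B C) := by
  have h1 := SS.hasDerivAt_val (qB Q) B A C
  have h2 : (fun u => qB Q (CG.ad B u A) (CG.ad B u C)) = fun _ => qB Q A C :=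
    funext fun u => q_ad Q B A C u
  rw [h2] at h1
  have h3 := h1.unique (hasDerivAt_const _ _)
  have h4 : CG.brk A B = - CG.brk B A := CG4.brk_anti A B
  rw [h4, map_neg, LinearMap.neg_apply]
  linarith

/-- translation of an inner product -/
def toQ (Q : SymProduct σ) : CG4.InvProduct (toC G) where
  val := qB Q
  symm := Q.symm
  pos := Q.pos
  inv := q_inv Q

theorem q_theta (Q : SymProduct σ) (A B : CG.lieAlg (toC G)) :
    (toQ Q).val (SS.theta (toI σ) A) (SS.theta (toI σ) B) = (toQ Q).val A B := Q.theta A B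

theorem q_hor_ver (Q : SymProduct σ) {A B : CG.lieAlg (toC G)} (hA : A ∈ SS.pSub (toI σ))
    (hB : SS.theta (toI σ) B = B) : qB Q A B = 0 := by
  have h1 := q_theta Q A B
  rw [(SS.mem_pSub' (toI σ) A).1 hA, hB, map_neg, LinearMap.neg_apply] at h1
  have h2 : (toQ Q).val A B = qB Q A B := rfl
  linarith

theorem ver_fix (A : CG.lieAlg (toC G)) : SS.theta (toI σ) (verL σ A) = verL σ A := by
  rw [verL_apply, map_smul, map_add, SS.theta_theta, add_comm]

theorem q_split (Q : SymProduct σ) (A B : CG.lieAlg (toC G)) :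
    qB Q A B = qB Q (horL σ A) (horL σ B) + qB Q (verL σ A) (verL σ B) := by
  have h1 : qB Q (horL σ A) (verL σ B) = 0 := q_hor_ver Q (horL σ A).2 (ver_fix B)
  have h2 : qB Q (verL σ A) (horL σ B) = 0 := by
    have h3 : qB Q (verL σ A) (horL σ B) = qB Q (horL σ B) (verL σ A) := Q.symm _ _
    rw [h3]
    exact q_hor_ver Q (horL σ B).2 (ver_fix A)
  conv_lhs => rw [← hor_add_ver (σ := σ) A, ← hor_add_ver (σ := σ) B]
  simp only [map_add, LinearMap.add_apply, h1, h2]
  ring

/-- the metric as a bilinear map -/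
def gB (g : Metric σ) (p : CG.Pt (toC G)) : SS.pSub (toI σ) →ₗ[ℝ] SS.pSub (toI σ) →ₗ[ℝ] ℝ :=
  LinearMap.mk₂ ℝ (fun A B : SS.pSub (toI σ) => g.val p A B)
    (fun A B C => g.add p A B C)
    (fun c A B => g.smul p c A B)
    (fun A B C => (g.symm p _ _).trans ((g.add p B C A).trans
      (congrArg₂ (· + ·) (g.symm p B A) (g.symm p C A))))
    (fun c A B => (g.symm p _ _).trans ((g.smul p c B A).trans
      (congrArg (fun x => c * x) (g.symm p B A))))

theorem gB_nonneg (g : Metric σ) (p : CG.Pt (toC G)) (A : SS.pSub (toI σ)) : 0 ≤ gB g p A A := by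
  by_cases h : A = 0
  · rw [h, map_zero]
  · exact (g.pos p A h).le

theorem qB_nonneg (Q : SymProduct σ) (A : CG.lieAlg (toC G)) : 0 ≤ qB Q A A := by
  by_cases h : A = 0
  · rw [h, map_zero]
  · exact (Q.pos A h).le

/-- the horizontal lift of a metric -/
def liftM (Q : SymProduct σ) (g : Metric σ) : CG.Metric (toC G) where
  val p := (gB g p).compl₁₂ (horL σ) (horL σ) + (qB Q).compl₁₂ (verL σ) (verL σ)
  symm p A B := by
    show gB g p (horL σ A) (horL σ B) + qB Q (verL σ A) (verL σ B) =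
      gB g p (horL σ B) (horL σ A) + qB Q (verL σ B) (verL σ A)
    have h1 : gB g p (horL σ A) (horL σ B) = gB g p (horL σ B) (horL σ A) := g.symm p _ _
    have h2 : qB Q (verL σ A) (verL σ B) = qB Q (verL σ B) (verL σ A) := Q.symm _ _
    rw [h1, h2]
  pos p A hA := by
    show 0 < gB g p (horL σ A) (horL σ A) + qB Q (verL σ A) (verL σ A)
    have h1 := gB_nonneg g p (horL σ A)
    have h2 := qB_nonneg Q (verL σ A)
    by_cases h : horL σ A = 0
    · have h3 : verL σ A ≠ 0 := by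
        intro h4
        apply hA
        rw [← hor_add_ver (σ := σ) A, h, h4]
        simp
      have h5 : 0 < qB Q (verL σ A) (verL σ A) := Q.pos _ h3
      linarith
    · have h5 : 0 < gB g p (horL σ A) (horL σ A) := g.pos p _ h
      linarith
  smooth A B := CG.smooth_add _ _ (g.smooth _ _) (CG.smooth_const (qB Q (verL σ A) (verL σ B)))

theorem liftM_val (Q : SymProduct σ) (g : Metric σ) (p : CG.Pt (toC G))
    (A B : CG.lieAlg (toC G)) :
    (liftM Q g).val p A B = gB g p (horL σ A) (horL σ B) + qB Q (verL σ A) (verL σ B) := rfl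

theorem liftM_hor (Q : SymProduct σ) (g : Metric σ) (p : CG.Pt (toC G))
    (A B : SS.pSub (toI σ)) : (liftM Q g).val p A B = gB g p A B := by
  rw [liftM_val, verL_of_mem A.2, map_zero, LinearMap.zero_apply, add_zero, horL_of_mem A.2,
    horL_of_mem B.2]

theorem lifted (Q : SymProduct σ) (g : Metric σ) : SS.Lifted (toI σ) (toQ Q) (liftM Q g) where
  ver p A B hA := by
    have h0 : qB Q ((0 : SS.pSub (toI σ)) : CG.lieAlg (toC G)) (horL σ B : CG.lieAlg (toC G)) =
        0 := by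
      rw [Submodule.coe_zero, map_zero, LinearMap.zero_apply]
    have h1 : qB Q A B = qB Q (verL σ A) (verL σ B) := by
      rw [q_split Q A B, horL_of_fix hA, h0, zero_add]
    have h2 : (liftM Q g).val p A B = qB Q (verL σ A) (verL σ B) := by
      refine (liftM_val Q g p A B).trans ?_
      rw [horL_of_fix hA, map_zero, LinearMap.zero_apply, zero_add]
    exact h2.trans h1.symm
  eqv p k hk A B hA hB := by
    have h1 := liftM_hor Q g (mulP p k) ⟨A, hA⟩ ⟨B, hB⟩
    have h2 := liftM_hor Q g p (conjK (σ := σ) ⟨k, hk⟩ ⟨A, hA⟩) (conjK (σ := σ) ⟨k, hk⟩ ⟨B, hB⟩)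
    have h3 := g.equiv p ⟨k, hk⟩ ⟨A, hA⟩ ⟨B, hB⟩
    exact h1.trans (h3.trans h2.symm)

end Pool.Agent.TH109.SY
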