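import Pool.Agent.TH109.CG5.Stmt
import Pool.Agent.TH109.SS.Invo

/-!
Riemannian metrics on the symmetric space `G/K` of a compact matrix group `G` with an involution.
-/

open scoped ContDiff Matrix.Norms.Frobenius
open Matrix

noncomputable section

namespace Pool.Agent.TH109.SY

open Pool.Agent.TH109.CG (Mat)
open Pool.Agent.TH109.CG5

variable {N : ℕ}

/-- An involution `p ↦ s p s` of the compact matrix group `G`, where `s` is a Hermitian matrix with
`s² = 1`. The symmetric space is `G/K`, where `K` consists of the elements of `G` which commute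
with `s`. -/
structure Involution (G : CompactGroup N) where
  s : Mat N
  herm : sᴴ = s
  sq : s * s = 1
  conj : ∀ p, p ∈ G.S → s * p * s ∈ G.S

/-- the involution in the form used in the proof -/
def toI {G : CompactGroup N} (σ : Involution G) : SS.Invo (toC G) where
  s := σ.s
  herm := σ.herm
  sq := σ.sq
  conj p hp := σ.conj p hp

variable {G : CompactGroup N}

/-- The tangent space `𝔭` of `G/K` at the base point: the elements `A` of the Lie algebra of `G`
with `s A s = -A`. The tangent space of `G/K` at `pK` is identified with `𝔭` by assigning to `A`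
the velocity of the curve `p exp(uA) K` at `u = 0`. -/
def Tan (σ : Involution G) : Type := {A : Alg G // σ.s * A.1 = -(A.1 * σ.s)}

theorem tan_add {σ : Involution G} {A B : Alg G} (hA : σ.s * A.1 = -(A.1 * σ.s))
    (hB : σ.s * B.1 = -(B.1 * σ.s)) : σ.s * (A + B).1 = -((A + B).1 * σ.s) :=
  (SS.pSub (toI σ)).add_mem hA hB

theorem tan_zero (σ : Involution G) : σ.s * (0 : Alg G).1 = -((0 : Alg G).1 * σ.s) :=
  (SS.pSub (toI σ)).zero_mem

theorem tan_smul {σ : Involution G} (c : ℝ) {A : Alg G} (hA : σ.s * A.1 = -(A.1 * σ.s)) :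
    σ.s * (c • A).1 = -((c • A).1 * σ.s) :=
  (SS.pSub (toI σ)).smul_mem c hA

/-- `𝔭` as a linear subspace of the Lie algebra -/
def tanSub (σ : Involution G) : Submodule ℝ (Alg G) where
  carrier := {A | σ.s * A.1 = -(A.1 * σ.s)}
  add_mem' := tan_add
  zero_mem' := tan_zero σ
  smul_mem' := tan_smul

instance (σ : Involution G) : AddCommGroup (Tan σ) := inferInstanceAs (AddCommGroup (tanSub σ))

instance (σ : Involution G) : Module ℝ (Tan σ) := inferInstanceAs (Module ℝ (tanSub σ))

/-- an element of `𝔭` as an element of the Lie algebra of `G` -/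
def inc {σ : Involution G} (A : Tan σ) : Alg G := A.1

theorem mulP_mem (p k : Pt G) : p.1 * k.1 ∈ G.S := G.mul_mem _ _ p.2 k.2

/-- product in `G` -/
def mulP (p k : Pt G) : Pt G := ⟨p.1 * k.1, mulP_mem p k⟩

theorem conjA_mem (p : Pt G) (A : Alg G) (u : ℝ) :
    NormedSpace.exp (u • (p.1 * A.1 * p.1ᴴ)) ∈ G.S := by
  have h1 : (1 : Mat N) = p.1ᴴ * p.1 := (G.unitary _ p.2).symm
  have h2 : p.1 * p.1ᴴ = 1 := by
    have := G.unitary _ (G.inv_mem _ p.2)
    rwa [conjTranspose_conjTranspose] at this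
  have h0 : p.1⁻¹ = p.1ᴴ := Matrix.inv_eq_right_inv h2
  have h3 : u • (p.1 * A.1 * p.1ᴴ) = p.1 * (u • A.1) * p.1⁻¹ := by
    rw [h0, Matrix.mul_smul, Matrix.smul_mul]
  rw [h3, Matrix.exp_conj _ _ ⟨⟨p.1, p.1ᴴ, h2, h1.symm⟩, rfl⟩, h0]
  exact G.mul_mem _ _ (G.mul_mem _ _ p.2 (A.2 u)) (G.inv_mem _ p.2)

/-- the adjoint action: conjugation of an element of the Lie algebra by an element of `G` -/
def conjA (p : Pt G) (A : Alg G) : Alg G := ⟨p.1 * A.1 * p.1ᴴ, conjA_mem p A⟩

theorem theta_mem (σ : Involution G) (A : Alg G) (u : ℝ) :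
    NormedSpace.exp (u • (σ.s * A.1 * σ.s)) ∈ G.S := (SS.theta (toI σ) A).2 u

/-- the involution `A ↦ s A s` of the Lie algebra -/
def theta (σ : Involution G) (A : Alg G) : Alg G := ⟨σ.s * A.1 * σ.s, theta_mem σ A⟩

/-- the isotropy group `K` of the base point: the elements of `G` which commute with `s` -/
def Iso (σ : Involution G) : Type := {k : Pt G // σ.s * k.1 = k.1 * σ.s}

/-- an element of `K` as an element of `G` -/
def incK {σ : Involution G} (k : Iso σ) : Pt G := k.1

theorem conjK_mem {σ : Involution G} (k : Iso σ) (A : Tan σ) :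
    σ.s * (conjA (incK k) (inc A)).1 = -((conjA (incK k) (inc A)).1 * σ.s) := by
  have h1 : σ.s * k.1.1 = k.1.1 * σ.s := k.2
  have h2 : σ.s * A.1.1 = -(A.1.1 * σ.s) := A.2
  have h3 : σ.s * k.1.1ᴴ = k.1.1ᴴ * σ.s := by
    have := congrArg conjTranspose h1
    rw [conjTranspose_mul, conjTranspose_mul, σ.herm] at this
    exact this.symm
  show σ.s * (k.1.1 * A.1.1 * k.1.1ᴴ) = -(k.1.1 * A.1.1 * k.1.1ᴴ * σ.s)
  calc σ.s * (k.1.1 * A.1.1 * k.1.1ᴴ) = (σ.s * k.1.1) * A.1.1 * k.1.1ᴴ := by
        simp only [Matrix.mul_assoc]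
    _ = k.1.1 * (σ.s * A.1.1) * k.1.1ᴴ := by rw [h1]; simp only [Matrix.mul_assoc]
    _ = -(k.1.1 * A.1.1 * (σ.s * k.1.1ᴴ)) := by
        rw [h2]; simp only [Matrix.mul_neg, Matrix.neg_mul, Matrix.mul_assoc]
    _ = _ := by rw [h3]; simp only [Matrix.mul_assoc]

/-- the isotropy representation of `K` on `𝔭` by conjugations -/
def conjK {σ : Involution G} (k : Iso σ) (A : Tan σ) : Tan σ :=
  ⟨conjA (incK k) (inc A), conjK_mem k A⟩

theorem conjI_mem (p : Pt G) (A : Alg G) (u : ℝ) :
    NormedSpace.exp (u • (p.1ᴴ * A.1 * p.1)) ∈ G.S := by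
  have h := conjA_mem (⟨p.1ᴴ, G.inv_mem _ p.2⟩ : Pt G) A u
  rwa [conjTranspose_conjTranspose] at h

/-- conjugation of an element of the Lie algebra by the inverse of an element of `G` -/
def conjI (p : Pt G) (A : Alg G) : Alg G := ⟨p.1ᴴ * A.1 * p.1, conjI_mem p A⟩

theorem hor_mem (σ : Involution G) (A : Alg G) :
    σ.s * ((1 / 2 : ℝ) • (A - theta σ A)).1 = -(((1 / 2 : ℝ) • (A - theta σ A)).1 * σ.s) := by
  have h1 : ((1 / 2 : ℝ) • (A - theta σ A)).1 = (1 / 2 : ℝ) • (A.1 - σ.s * A.1 * σ.s) := rfl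
  rw [h1, Matrix.mul_smul, Matrix.smul_mul, ← smul_neg, Matrix.mul_sub, Matrix.sub_mul, neg_sub,
    ← Matrix.mul_assoc σ.s (σ.s * A.1), ← Matrix.mul_assoc σ.s σ.s, σ.sq, Matrix.one_mul,
    Matrix.mul_assoc (σ.s * A.1), σ.sq, Matrix.mul_one]

/-- the component in `𝔭` of an element of the Lie algebra of `G` -/
def hor (σ : Involution G) (A : Alg G) : Tan σ := ⟨(1 / 2 : ℝ) • (A - theta σ A), hor_mem σ A⟩

/-- the element `exp(u X)` of `G` -/
def expG (X : Alg G) (u : ℝ) : Pt G := ⟨NormedSpace.exp (u • X.1), X.2 u⟩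

/-- The vector field on `G/K` generated by the element `X` of the Lie algebra: its value at `pK` is
the velocity of the curve `exp(uX) p K = p exp(u p⁻¹Xp) K` at `u = 0`. -/
def field (σ : Involution G) (X : Alg G) (p : Pt G) : Tan σ := hor σ (conjI p X)

/-- derivative of a function along the vector field generated by `X` -/
def act (X : Alg G) (f : Pt G → ℝ) (p : Pt G) : ℝ := deriv (fun u => f (mulP (expG X u) p)) 0

/-- An inner product on the Lie algebra of `G` which is invariant under the adjoint action of `G`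
and under the involution. Its restriction to `𝔭` defines a `G`-invariant (symmetric) Riemannian
metric on `G/K`. -/
structure SymProduct (σ : Involution G) where
  val : Alg G → Alg G → ℝ
  add : ∀ A B C, val (A + B) C = val A C + val B C
  smul : ∀ (c : ℝ) A B, val (c • A) B = c * val A B
  symm : ∀ A B, val A B = val B A
  pos : ∀ A, A ≠ 0 → 0 < val A A
  inv : ∀ p A B, val (conjA p A) (conjA p B) = val A B
  theta : ∀ A B, val (theta σ A) (theta σ B) = val A B

/-- A smooth Riemannian metric on `G/K`: `g.val p A B` is the inner product of the tangent vectors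
of `G/K` at `pK` which correspond to `A` and `B`. -/
structure Metric (σ : Involution G) where
  val : Pt G → Tan σ → Tan σ → ℝ
  add : ∀ p A B C, val p (A + B) C = val p A C + val p B C
  smul : ∀ p (c : ℝ) A B, val p (c • A) B = c * val p A B
  symm : ∀ p A B, val p A B = val p B A
  pos : ∀ p A, A ≠ 0 → 0 < val p A A
  smooth : ∀ A B, Smooth (fun p => val p A B)
  equiv : ∀ p (k : Iso σ) A B, val (mulP p (incK k)) A B = val p (conjK k A) (conjK k B)

namespace Metric

variable {σ : Involution G} (g : Metric σ)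

/-- the inner product `g(X*, Y*)` of the vector fields `X*`, `Y*` on `G/K` generated by `X`, `Y` -/
def ip (X Y : Alg G) (p : Pt G) : ℝ := g.val p (field σ X p) (field σ Y p)

/-- Koszul's formula for `g(∇_{X*} Y*, Z*)`, where `X*`, `Y*`, `Z*` are the vector fields on `G/K`
generated by `X`, `Y`, `Z`. Note that `[X*, Y*] = -[X, Y]*`. -/
def koszul (X Y Z : Alg G) (p : Pt G) : ℝ :=
  (act X (g.ip Y Z) p + act Y (g.ip X Z) p - act Z (g.ip X Y) p - g.ip (brk X Y) Z p
    + g.ip (brk X Z) Y p + g.ip (brk Y Z) X p) / 2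

/-- the covariant derivative `∇_{X*} Y*` at `pK`: the unique `V` in `𝔭` whose inner products with
the vectors `Z*(pK)`, which span the tangent space, are given by Koszul's formula -/
def nabla (X Y : Alg G) (p : Pt G) : Tan σ :=
  Classical.epsilon fun V => ∀ Z, g.val p V (field σ Z p) = g.koszul X Y Z p

/-- The curvature `g(R(X*,Y*)Y*, X*)` at `pK`, where `R(X*,Y*)Y*` is
`∇_{X*} ∇_{Y*} Y* - ∇_{Y*} ∇_{X*} Y* - ∇_{[X*,Y*]} Y*` and `[X*, Y*] = -[X, Y]*`, in the form
`X* g(∇_{Y*} Y*, X*) - g(∇_{Y*} Y*, ∇_{X*} X*) - Y* g(∇_{X*} Y*, X*) + g(∇_{X*} Y*, ∇_{Y*} X*)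
+ g(∇_{[X,Y]*} Y*, X*)`. -/
def curv (X Y : Alg G) (p : Pt G) : ℝ :=
  act X (g.koszul Y Y X) p - g.val p (g.nabla Y Y p) (g.nabla X X p)
    - act Y (g.koszul X Y X) p + g.val p (g.nabla X Y p) (g.nabla Y X p)
    + g.koszul (brk X Y) Y X p

/-- The sectional curvature of the plane spanned by the tangent vectors `A`, `B` of `G/K` at `pK`,
which are the values at `pK` of the vector fields generated by `pAp⁻¹` and `pBp⁻¹`. -/
def sec (A B : Tan σ) (p : Pt G) : ℝ :=
  g.curv (conjA p (inc A)) (conjA p (inc B)) p / (g.val p A A * g.val p B B - g.val p A B ^ 2)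

/-- `‖g - Q‖_{C⁴} ≤ t`: the components of `g - Q`, as functions on `G`, on vectors in `𝔭` of
`Q`-length at most one, and all their derivatives of order at most four along left-invariant fields
of `Q`-length at most one are bounded by `t`. -/
def CloseTo (Q : SymProduct σ) (t : ℝ) : Prop :=
  ∀ L : List (Alg G), L.length ≤ 4 → (∀ Z ∈ L, Q.val Z Z ≤ 1) →
    ∀ A B : Tan σ, Q.val (inc A) (inc A) ≤ 1 → Q.val (inc B) (inc B) ≤ 1 →
      ∀ p, |(L.foldr lie (fun q => g.val q A B - Q.val (inc A) (inc B))) p| ≤ t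

end Metric

end Pool.Agent.TH109.SY
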